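import Pool.Agent.H23.DM.TargetsI
import Pool.Agent.H27.TM.TargetsG
import Pool.Agent.H23.DM.TargetsG

/-!
# The twelfth moment in the whole conductor: row SM (sums over spaced frequencies)
-/

set_option autoImplicit false

open NumberField NumberField.InfinitePlace
open scoped nonZeroDivisors

namespace Pool.Agent.H97.DM.SM

open Pool.Agent.H25.HK Pool.Agent.H23.LB Pool.Agent.H23.LC
open Pool.Agent.H23.DM
open Pool.Agent.H27.TM (Cls Spc th1)
open Pool.Agent.H29.DW (dg Rl rv Pos)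
open Pool.Agent.H31.SW (PP DD dK Pf)

private lemma one_le_Nf {K : Type} [Field K] [NumberField K] {I : Ideal (𝓞 K)} (hI : I ≠ ⊥) :
    1 ≤ Nf K I := by
  unfold Nf
  have h : Ideal.absNorm I ≠ 0 := by
    rw [Ne, Ideal.absNorm_eq_zero_iff]
    exact hI
  exact_mod_cast Nat.one_le_iff_ne_zero.mpr h

-- the number of the classes modulo `b` in a coset of `c`
private lemma card_classes {K : Type} [Field K] [NumberField K] (b c : Ideal (𝓞 K))
    (hb : b ≠ ⊥) (hbc : b ≤ c) (S : Finset (𝓞 K ⧸ b)) (x₀ : 𝓞 K)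
    (hS : ∀ q ∈ S, ∃ x : 𝓞 K, Ideal.Quotient.mk b x = q ∧ x₀ - x ∈ c) :
    (S.card : ℝ) ≤ Nf K b / Nf K c := by
  classical
  have hc : c ≠ ⊥ := by
    intro h
    exact hb (le_bot_iff.mp (hbc.trans_eq h))
  have hfin : Finite (𝓞 K ⧸ b) := Ideal.finiteQuotientOfFreeOfNeBot b hb
  have hNc : 0 < Nf K c := by linarith [one_le_Nf hc]
  rw [le_div_iff₀ hNc]
  have h1 : S.card ≤ Nat.card (c.map (Ideal.Quotient.mk b)) := by
    have hinj : (S.image fun q => Ideal.Quotient.mk b x₀ - q).card = S.card :=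
      Finset.card_image_of_injective _ fun x y h => sub_right_injective h
    rw [← hinj]
    have hsub : ((S.image fun q => Ideal.Quotient.mk b x₀ - q : Finset (𝓞 K ⧸ b)) :
        Set (𝓞 K ⧸ b)) ⊆ ((c.map (Ideal.Quotient.mk b) : Ideal (𝓞 K ⧸ b)) :
          Set (𝓞 K ⧸ b)) := by
      intro q hq
      rw [Finset.mem_coe, Finset.mem_image] at hq
      obtain ⟨q', hq', rfl⟩ := hq
      obtain ⟨x, rfl, hx⟩ := hS q' hq'
      rw [← map_sub]
      exact Ideal.mem_map_of_mem _ hx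
    calc (S.image fun q => Ideal.Quotient.mk b x₀ - q).card =
        ((S.image fun q => Ideal.Quotient.mk b x₀ - q : Finset (𝓞 K ⧸ b)) :
          Set (𝓞 K ⧸ b)).ncard := (Set.ncard_coe_finset _).symm
      _ ≤ ((c.map (Ideal.Quotient.mk b) : Ideal (𝓞 K ⧸ b)) : Set (𝓞 K ⧸ b)).ncard :=
          Set.ncard_le_ncard hsub (Set.toFinite _)
      _ = Nat.card (c.map (Ideal.Quotient.mk b)) := rfl
  have h2 : Nat.card (𝓞 K ⧸ b) = Nat.card (c.map (Ideal.Quotient.mk b)) * Nat.card (𝓞 K ⧸ c) := by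
    rw [Submodule.card_eq_card_quotient_mul_card (c.map (Ideal.Quotient.mk b))]
    congr 1
    exact Nat.card_congr (DoubleQuot.quotQuotEquivQuotOfLE hbc).toEquiv
  have h3 : S.card * Ideal.absNorm c ≤ Ideal.absNorm b := by
    have e1 : Ideal.absNorm b = Nat.card (𝓞 K ⧸ b) := Ideal.absNorm_apply b
    have e2 : Ideal.absNorm c = Nat.card (𝓞 K ⧸ c) := Ideal.absNorm_apply c
    rw [e1, e2, h2]
    exact Nat.mul_le_mul_right _ h1
  unfold Nf
  exact_mod_cast h3

theorem pf_SM (hSM : Pool.Agent.H27.TM.M_SM) (hCH : D_CH) : D_SM := by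
  classical
  intro n hn
  obtain ⟨C, hC, hSM⟩ := hSM n hn
  refine ⟨C, hC, ?_⟩
  intro K _ _ hK k κ b κ₃ b₃ e k' ι I γ c G α D hk hCh hke heκ hR hG hS i hi
  obtain ⟨b', κ₃', b₃', hCh', hκ0, hb0, -, -, hall⟩ := hCH K k κ hk hCh.k_le hCh.le
  have hbb : b' = b := by
    apply mul_left_cancel₀ (a := κ) hκ0
    rw [← hCh'.b_eq, ← hCh.b_eq]
  subst hbb
  obtain ⟨-, hN1, hN2, -, -, c₀, hbc, hcmem, hNc⟩ := hall e k' hke heκ
  have hek : e ≠ ⊥ ∧ k' ≠ ⊥ := by
    constructor
    · rintro rfl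
      exact hk (by rw [hke]; exact Ideal.bot_mul k')
    · rintro rfl
      exact hk (by rw [hke]; exact Ideal.mul_bot e)
  have hc0 : c₀ ≠ ⊥ := by
    intro h
    exact hb0 (le_bot_iff.mp (hbc.trans_eq h))
  have hD : 0 ≤ D := le_trans (Nat.cast_nonneg _) (hS (γ i) (c i))
  have hPP : 0 < PP α * PP G := by
    unfold Pool.Agent.H31.SW.PP
    apply mul_pos
    · exact Finset.prod_pos fun v _ => pow_pos (hG v).1 _
    · exact Finset.prod_pos fun v _ => pow_pos (hG v).2.1 _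
  rw [← Finset.sum_filter]
  set I' : Finset ι := I.filter fun j => ∀ t ∈ k.radical, (γ i - γ j) * t ∈ k' with hI'
  have hmem : ∀ j ∈ I', γ i - γ j ∈ c₀ := by
    intro j hj
    rw [hI', Finset.mem_filter] at hj
    exact (hcmem _).mpr hj.2
  have hiI' : i ∈ I' := by
    rw [hI', Finset.mem_filter]
    refine ⟨hi, fun t _ => ?_⟩
    rw [sub_self, zero_mul]
    exact Submodule.zero_mem _
  have hsp : Spc I' c G (Nf K b' / Nf K c₀ * D) := by
    intro z
    set F : Finset ι := I'.filter fun j => ∀ v, ‖c j v - z v‖ ≤ G v with hF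
    have hcard : (F.card : ℝ) = ∑ q ∈ F.image (fun j => Ideal.Quotient.mk b' (γ j)),
        ((F.filter fun j => Ideal.Quotient.mk b' (γ j) = q).card : ℝ) := by
      have := Finset.card_eq_sum_card_image (fun j => Ideal.Quotient.mk b' (γ j)) F
      exact_mod_cast this
    have hcl : ∀ q ∈ F.image (fun j => Ideal.Quotient.mk b' (γ j)),
        ((F.filter fun j => Ideal.Quotient.mk b' (γ j) = q).card : ℝ) ≤ D := by
      intro q hq
      obtain ⟨j₁, hj₁, rfl⟩ := Finset.mem_image.mp hq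
      refine le_trans ?_ (hS (γ j₁) z)
      norm_cast
      apply Finset.card_le_card
      intro j hj
      rw [Finset.mem_filter] at hj ⊢
      obtain ⟨hj1, hj2⟩ := hj
      rw [hF, Finset.mem_filter] at hj1
      refine ⟨(Finset.mem_filter.mp hj1.1).1, ?_, hj1.2⟩
      exact Ideal.Quotient.eq.mp hj2
    have hnum : ((F.image (fun j => Ideal.Quotient.mk b' (γ j))).card : ℝ) ≤
        Nf K b' / Nf K c₀ := by
      apply card_classes b' c₀ hb0 hbc _ (γ i)
      intro q hq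
      obtain ⟨j, hj, rfl⟩ := Finset.mem_image.mp hq
      exact ⟨γ j, rfl, hmem j (Finset.mem_filter.mp hj).1⟩
    calc (F.card : ℝ) = ∑ q ∈ F.image (fun j => Ideal.Quotient.mk b' (γ j)),
        ((F.filter fun j => Ideal.Quotient.mk b' (γ j) = q).card : ℝ) := hcard
      _ ≤ ∑ _q ∈ F.image (fun j => Ideal.Quotient.mk b' (γ j)), D := Finset.sum_le_sum hcl
      _ = ((F.image (fun j => Ideal.Quotient.mk b' (γ j))).card : ℝ) * D := by
          rw [Finset.sum_const, nsmul_eq_mul]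
      _ ≤ Nf K b' / Nf K c₀ * D := mul_le_mul_of_nonneg_right hnum hD
  have h1 := hSM K hK ι I' c G α (Nf K b' / Nf K c₀ * D)
    (fun j hj => hR j (Finset.mem_filter.mp hj).1) hG hsp i hiI'
  refine h1.trans ?_
  apply div_le_div_of_nonneg_right _ hPP.le
  apply mul_le_mul_of_nonneg_left _ (by linarith)
  rw [mul_comm]
  apply mul_le_mul_of_nonneg_left _ hD
  have g1 : 0 < Nf K c₀ := by linarith [one_le_Nf hc0]
  have g2 : 0 < Nf K κ := by linarith [one_le_Nf hκ0]
  have g3 : 0 < Nf K k' := by linarith [one_le_Nf hek.2]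
  have g4 : 0 < Nf K b' := by linarith [one_le_Nf hb0]
  rw [mul_div_assoc', div_le_div_iff₀ g1 g2]
  have e1 : Nf K κ * Nf K b' = Nf K e * Nf K k' := by rw [← hN1, ← hN2]
  calc Nf K b' * Nf K κ = Nf K κ * Nf K b' := mul_comm _ _
    _ = Nf K e * Nf K k' := e1
    _ ≤ Nf K e * (Nf K c₀ * Nf K k.radical) := by
        apply mul_le_mul_of_nonneg_left hNc
        linarith [one_le_Nf hek.1]
    _ = Nf K k.radical * Nf K e * Nf K c₀ := by ring

end Pool.Agent.H97.DM.SM
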