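import Pool.Agent.H23.DM.TargetsI
import Pool.Agent.H23.DM.TargetsG

/-!
# The twelfth moment in the whole conductor: row KC (large values in a class)
-/

set_option autoImplicit false

open NumberField NumberField.InfinitePlace
open scoped nonZeroDivisors

namespace Pool.Agent.H97.DM.KC

open Pool.Agent.H25.HK Pool.Agent.H23.LB Pool.Agent.H23.LC
open Pool.Agent.H23.DM
open Pool.Agent.H27.TM (Cls)
open Pool.Agent.H29.DW (dg Rl rv Pos)
open Pool.Agent.H31.SW (PP DD dK Pf)
open Pool.Agent.H31.SX (ND LK)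

private lemma one_le_dK (K : Type) [Field K] [NumberField K] : 1 ≤ dK K := by
  unfold Pool.Agent.H31.SW.dK
  have h := Int.one_le_abs (discr_ne_zero K)
  exact_mod_cast h

private lemma one_le_Nf {K : Type} [Field K] [NumberField K] {I : Ideal (𝓞 K)} (hI : I ≠ ⊥) :
    1 ≤ Nf K I := by
  unfold Nf
  have h : Ideal.absNorm I ≠ 0 := by
    rw [Ne, Ideal.absNorm_eq_zero_iff]
    exact hI
  exact_mod_cast Nat.one_le_iff_ne_zero.mpr h

private lemma one_le_PP {K : Type} [Field K] [NumberField K] (τ : InfinitePlace K → ℝ)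
    (h : ∀ v, 1 ≤ τ v) : 1 ≤ PP τ := by
  classical
  unfold Pool.Agent.H31.SW.PP
  calc (1 : ℝ) = ∏ _v : InfinitePlace K, (1 : ℝ) := by simp
    _ ≤ ∏ v, τ v ^ v.mult := Finset.prod_le_prod (fun v _ => by norm_num)
        fun v _ => one_le_pow₀ (h v)

private lemma PP_rpow {K : Type} [Field K] [NumberField K] (τ : InfinitePlace K → ℝ)
    (θ : ℝ) (h : ∀ v, 1 ≤ τ v) : PP (fun v => τ v ^ θ) = PP τ ^ θ := by
  classical
  unfold Pool.Agent.H31.SW.PP
  rw [← Real.finsetProd_rpow _ _ (fun v _ => pow_nonneg (by linarith [h v]) _)]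
  apply Finset.prod_congr rfl
  intro v _
  have h0 : 0 ≤ τ v := by linarith [h v]
  rw [← Real.rpow_natCast, ← Real.rpow_natCast, ← Real.rpow_mul h0, ← Real.rpow_mul h0,
    mul_comm]

private lemma PP_pow {K : Type} [Field K] [NumberField K] (τ : InfinitePlace K → ℝ)
    (k : ℕ) : PP (fun v => τ v ^ k) = PP τ ^ k := by
  classical
  unfold Pool.Agent.H31.SW.PP
  rw [← Finset.prod_pow]
  apply Finset.prod_congr rfl
  intro v _
  rw [← pow_mul, ← pow_mul, Nat.mul_comm]

private lemma exp_exists (T g : ℝ) (hT : 1 ≤ T) (h1 : T ^ (1 / 6 : ℝ) ≤ g) (h3 : g ^ 3 ≤ T) :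
    ∃ s : ℝ, 1 / 6 ≤ s ∧ s ≤ 1 / 3 ∧ T ^ s = g := by
  have hg : 1 ≤ g := (Real.one_le_rpow hT (by norm_num)).trans h1
  rcases hT.eq_or_lt with h | h
  · refine ⟨1 / 6, le_rfl, by norm_num, ?_⟩
    subst h
    rw [Real.one_rpow]
    have h2 : g ≤ 1 := by
      by_contra hc
      push Not at hc
      have := one_lt_pow₀ hc (n := 3) (by norm_num)
      linarith
    linarith
  · have hlogT : 0 < Real.log T := Real.log_pos h
    have hT0 : 0 < T := by linarith
    refine ⟨Real.log g / Real.log T, ?_, ?_, ?_⟩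
    · rw [le_div_iff₀ hlogT]
      have := Real.log_le_log (Real.rpow_pos_of_pos hT0 _) h1
      rwa [Real.log_rpow hT0] at this
    · rw [div_le_iff₀ hlogT]
      have := Real.log_le_log (by positivity) h3
      rw [Real.log_pow] at this
      push_cast at this
      linarith
    · rw [Real.rpow_def_of_pos hT0, mul_div_cancel₀ _ hlogT.ne', Real.exp_log (by linarith)]

theorem pf_KC (hBL : D_BL) (hCL : D_CL) (hTC : D_TC) (hCH : D_CH) : D_KC := by
  classical
  intro n ε p hn hε hp
  obtain ⟨C2, hC2, hBL⟩ := hBL n ε p hn hε hp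
  obtain ⟨C4, hC4, hCL⟩ := hCL n hn
  obtain ⟨C3, hC3, hTC⟩ := hTC n hn
  have hC26 : 1 ≤ C2 ^ 6 := one_le_pow₀ hC2
  refine ⟨C3 * C4 * C2 ^ 6, ?_, ?_⟩
  · exact one_le_mul_of_one_le_of_one_le (one_le_mul_of_one_le_of_one_le hC3 hC4) hC26
  intro K _ _ hK l k κ θ M x₀ y ω ρ τ ι J η γ c D V hFP hω hρ hKap hFM hJ hS hD hDD hV hVT
    hlarge
  have hk : k ≠ ⊥ := hFP.lk.k_ne
  have hrad : k.radical ≠ ⊥ := by
    intro h
    exact hk (le_bot_iff.mp (Ideal.le_radical.trans_eq h))
  have hV6 : 1 ≤ V ^ 6 := one_le_pow₀ hV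
  have hT : 1 ≤ Nf K k * PP τ := hV6.trans hVT
  have hdK := one_le_dK K
  have hr0 : 1 ≤ Nf K k.radical := one_le_Nf hrad
  have hNk : 1 ≤ Nf K k := one_le_Nf hk
  set T : ℝ := Nf K k * PP τ with hTdef
  set r0 : ℝ := Nf K k.radical with hr0def
  have hTε : 1 ≤ T ^ ε := Real.one_le_rpow hT hε.le
  have hdK2 : 1 ≤ dK K ^ 2 := one_le_pow₀ hdK
  have hDd : 1 ≤ D * dK K ^ 2 := one_le_mul_of_one_le_of_one_le hD hdK2
  have hr04 : 1 ≤ r0 ^ 4 := one_le_pow₀ hr0
  set A : ℝ := D * dK K ^ 2 * r0 ^ 4 * T ^ ε with hA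
  have hA1 : 1 ≤ A := one_le_mul_of_one_le_of_one_le
    (one_le_mul_of_one_le_of_one_le hDd hr04) hTε
  have hDA : D ≤ A := by
    rw [hA]
    calc D = D * 1 * 1 * 1 := by ring
      _ ≤ D * dK K ^ 2 * r0 ^ 4 * T ^ ε := by
          apply mul_le_mul _ hTε (by norm_num) (by positivity)
          apply mul_le_mul _ hr04 (by norm_num) (by positivity)
          exact mul_le_mul_of_nonneg_left hdK2 (by linarith)
  have hVpos : 0 < V := by linarith
  have hT0 : 0 < T := by linarith
  have hA0 : 0 < A := by linarith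
  have hCA : 1 ≤ C2 * A := one_le_mul_of_one_le_of_one_le hC2 hA1
  have hCA0 : 0 < C2 * A := by linarith
  rcases J.eq_empty_or_nonempty with rfl | ⟨j₀, hj₀⟩
  · simp only [Finset.card_empty, Nat.cast_zero]
    positivity
  have hτ : ∀ v, 1 ≤ τ v := (hJ j₀ hj₀).one
  have hPτ : 1 ≤ PP τ := one_le_PP τ hτ
  have hgV' : V ^ 2 = C2 * A * (V ^ 2 / (C2 * A)) := by
    field_simp
  set g : ℝ := V ^ 2 / (C2 * A) with hgdef
  have hg0 : 0 < g := by positivity
  rcases lt_or_ge g (T ^ (1 / 6 : ℝ)) with hg | hg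
  · have h1 := hTC K hK k ι J η c τ D hk hτ (fun j hj => (hFM.lc j hj).mc) hJ hS
    rw [← hTdef] at h1
    have hg6 : g ^ 6 ≤ T := by
      calc g ^ 6 ≤ (T ^ (1 / 6 : ℝ)) ^ 6 := pow_le_pow_left₀ hg0.le hg.le 6
        _ = T := by
            rw [← Real.rpow_natCast, ← Real.rpow_mul hT0.le]
            norm_num
    have h2 : V ^ 12 ≤ C2 ^ 6 * A ^ 6 * T := by
      calc V ^ 12 = (V ^ 2) ^ 6 := by ring
        _ = C2 ^ 6 * A ^ 6 * g ^ 6 := by rw [hgV']; ring
        _ ≤ C2 ^ 6 * A ^ 6 * T := mul_le_mul_of_nonneg_left hg6 (by positivity)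
    have hV12 : 0 < V ^ 12 := by positivity
    calc (J.card : ℝ) ≤ C3 * (D * T) := h1
      _ ≤ C3 * (A * T) := by
          apply mul_le_mul_of_nonneg_left _ (by linarith)
          exact mul_le_mul_of_nonneg_right hDA hT0.le
      _ = C3 * (A * T * V ^ 12 / V ^ 12) := by
          rw [mul_div_assoc, div_self hV12.ne', mul_one]
      _ ≤ C3 * (A * T * (C2 ^ 6 * A ^ 6 * T) / V ^ 12) := by
          apply mul_le_mul_of_nonneg_left _ (by linarith)
          apply div_le_div_of_nonneg_right _ hV12.le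
          exact mul_le_mul_of_nonneg_left h2 (by positivity)
      _ = C3 * C2 ^ 6 * (A ^ 7 * (T ^ 2 / V ^ 12)) := by ring
      _ ≤ C3 * C4 * C2 ^ 6 * (A ^ 7 * (T ^ 2 / V ^ 12)) := by
          apply mul_le_mul_of_nonneg_right _ (by positivity)
          apply mul_le_mul_of_nonneg_right _ (by positivity)
          exact le_mul_of_one_le_right (by linarith) hC4
  · have hgV : g ≤ V ^ 2 := by
      rw [hgdef]
      exact div_le_self (by positivity) hCA
    have hg3 : g ^ 3 ≤ T := by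
      calc g ^ 3 ≤ (V ^ 2) ^ 3 := pow_le_pow_left₀ hg0.le hgV 3
        _ = V ^ 6 := by ring
        _ ≤ T := hVT
    obtain ⟨s, hs1, hs2, hTs⟩ := exp_exists T g hT hg hg3
    have hs0 : 0 ≤ s := by linarith
    obtain ⟨hk1, hk2, hk3, hk4, hk5, hk6⟩ := hKap s hs0 (by linarith)
    obtain ⟨hk5a, hk5b⟩ := hk5 hs1
    have hk6 := hk6 hs2
    obtain ⟨b, κ₃, b₃, hCh, hκ0, hb0, hκ30, hb30, hCH'⟩ := hCH K k (κ s) hk hk1 hk2
    obtain ⟨-, -, -, hN3, -, -⟩ := hCH' (κ s) b hCh.b_eq le_rfl
    set G : InfinitePlace K → ℝ := fun v => τ v ^ s with hG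
    have hG1 : ∀ v, 1 ≤ G v := fun v => Real.one_le_rpow (hτ v) hs0
    have hG3 : ∀ v, G v ^ 3 ≤ τ v := by
      intro v
      have h0 : 0 ≤ τ v := by linarith [hτ v]
      calc G v ^ 3 = τ v ^ (s * 3) := by
            rw [hG, ← Real.rpow_natCast, ← Real.rpow_mul h0]
            norm_num
        _ ≤ τ v ^ (1 : ℝ) := Real.rpow_le_rpow_of_exponent_le (hτ v) (by linarith)
        _ = τ v := Real.rpow_one _
    have hPG : PP G = PP τ ^ s := PP_rpow τ s hτ
    have hPG3 : PP (fun v => G v ^ 3) = PP τ ^ (3 * s) := by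
      rw [PP_pow G 3, hPG, ← Real.rpow_natCast, ← Real.rpow_mul (by linarith), mul_comm]
      norm_num
    have hTs' : Nf K k ^ s * PP τ ^ s = g := by
      rw [← Real.mul_rpow (by linarith) (by linarith), ← hTdef, hTs]
    have hPs : 0 < PP τ ^ s := Real.rpow_pos_of_pos (by linarith) _
    have hGG1 : g ≤ Nf K (κ s) * PP G := by
      rw [hPG, ← hTs']
      exact mul_le_mul_of_nonneg_right hk3 hPs.le
    have hGG2 : Nf K (κ s) * PP G ≤ g * r0 := by
      rw [hPG]
      calc Nf K (κ s) * PP τ ^ s ≤ (Nf K k ^ s * r0) * PP τ ^ s :=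
            mul_le_mul_of_nonneg_right hk4 hPs.le
        _ = g * r0 := by rw [← hTs']; ring
    have hcell : Nf K b₃ * (PP τ / PP (fun v => G v ^ 3)) ≤ T / g ^ 3 := by
      have hN30 : 0 < Nf K κ₃ := by linarith [one_le_Nf hκ30]
      have hb3 : Nf K b₃ = Nf K k / Nf K κ₃ := by
        rw [hN3]
        field_simp
      have hg3' : g ^ 3 = Nf K k ^ (3 * s) * PP τ ^ (3 * s) := by
        rw [← Real.mul_rpow (by linarith) (by linarith), ← hTdef, ← hTs, ← Real.rpow_natCast,
          ← Real.rpow_mul hT0.le, mul_comm]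
        norm_num
      have hP3 : 0 < PP τ ^ (3 * s) := Real.rpow_pos_of_pos (by linarith) _
      have hN3s : 0 < Nf K k ^ (3 * s) := Real.rpow_pos_of_pos (by linarith) _
      rw [hPG3, hb3, hg3', hTdef, div_mul_div_comm]
      apply div_le_div_of_nonneg_left (by positivity) (by positivity)
      apply mul_le_mul_of_nonneg_right _ hP3.le
      rw [hCh.κ₃_eq]
      exact hk6
    obtain ⟨bl, hbl1, hbl2⟩ := hCL K hK ι J γ b₃ c τ (fun v => G v ^ 3) hb30
      (fun v => ⟨by have := hG1 v; positivity, hG3 v⟩)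
      (fun j hj => fun v => ⟨(hJ j hj).real v, by have := (hJ j hj).upp v; linarith⟩)
    have hbl1' : ((J.image bl).card : ℝ) ≤ C4 * (T / g ^ 3) :=
      hbl1.trans (mul_le_mul_of_nonneg_left hcell (by linarith))
    have hfib : ∀ b' ∈ J.image bl, ((J.filter fun j => bl j = b').card : ℝ) ≤
        C2 * (A ^ 2 * (T / (V ^ 4 * g))) := by
      intro b' _
      have h1 := hBL K hK l k (κ s) b κ₃ b₃ θ M x₀ y ω ρ G τ ι (J.filter fun j => bl j = b') η
        γ c D V hFP hω hρ hCh hk5a
        ⟨hFM.nd, fun j hj => hFM.lc j (Finset.mem_filter.mp hj).1, fun j hj => ?_⟩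
        (fun v => ⟨hG1 v, hG3 v⟩) (fun j hj => hJ j (Finset.mem_filter.mp hj).1) ?_ ?_ hD hDD
        hVpos ?_ (fun j hj => hlarge j (Finset.mem_filter.mp hj).1)
      · rw [← hTdef, ← hr0def] at h1
        refine h1.trans ?_
        apply mul_le_mul_of_nonneg_left _ (by linarith)
        apply mul_le_mul
        · apply pow_le_pow_left₀ (by positivity)
          rw [hA]
          apply mul_le_mul_of_nonneg_right _ (by positivity)
          apply mul_le_mul_of_nonneg_left _ (by positivity)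
          exact pow_le_pow_right₀ hr0 (by norm_num)
        · apply div_le_div_of_nonneg_left hT0.le (by positivity)
          exact mul_le_mul_of_nonneg_left hGG1 (by positivity)
        · have : 0 < Nf K (κ s) * PP G := lt_of_lt_of_le hg0 hGG1
          positivity
        · positivity
      · intro t ht
        exact hFM.fq j (Finset.mem_filter.mp hj).1 t (Ideal.map_mono hk5b ht)
      · intro i hi j hj
        rw [Finset.mem_filter] at hi hj
        exact hbl2 i hi.1 j hj.1 (hi.2.trans hj.2.symm)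
      · intro η₀ c₀
        refine le_trans ?_ (hS η₀ c₀)
        norm_cast
        apply Finset.card_le_card
        intro j hj
        rw [Finset.mem_filter] at hj ⊢
        exact ⟨(Finset.mem_filter.mp hj.1).1, hj.2⟩
      · rw [← hTdef, ← hr0def]
        calc C2 * (D * dK K ^ 2 * r0 ^ 3 * T ^ ε * (Nf K (κ s) * PP G)) ≤
            C2 * (D * dK K ^ 2 * r0 ^ 3 * T ^ ε * (g * r0)) := by
              apply mul_le_mul_of_nonneg_left _ (by linarith)
              exact mul_le_mul_of_nonneg_left hGG2 (by positivity)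
          _ = C2 * A * g := by rw [hA]; ring
          _ = V ^ 2 := hgV'.symm
    have hcard : (J.card : ℝ) =
        ∑ b' ∈ J.image bl, ((J.filter fun j => bl j = b').card : ℝ) := by
      have := Finset.card_eq_sum_card_image bl J
      exact_mod_cast this
    calc (J.card : ℝ) = ∑ b' ∈ J.image bl, ((J.filter fun j => bl j = b').card : ℝ) := hcard
      _ ≤ ∑ _b ∈ J.image bl, C2 * (A ^ 2 * (T / (V ^ 4 * g))) := Finset.sum_le_sum hfib
      _ = ((J.image bl).card : ℝ) * (C2 * (A ^ 2 * (T / (V ^ 4 * g)))) := by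
          rw [Finset.sum_const, nsmul_eq_mul]
      _ ≤ (C4 * (T / g ^ 3)) * (C2 * (A ^ 2 * (T / (V ^ 4 * g)))) :=
          mul_le_mul_of_nonneg_right hbl1' (by positivity)
      _ = C4 * C2 ^ 5 * (A ^ 6 * (T ^ 2 / V ^ 12)) := by
          rw [hgdef]
          field_simp
      _ ≤ C3 * C4 * C2 ^ 6 * (A ^ 7 * (T ^ 2 / V ^ 12)) := by
          apply mul_le_mul
          · calc C4 * C2 ^ 5 = 1 * C4 * C2 ^ 5 := by ring
              _ ≤ C3 * C4 * C2 ^ 6 := by
                  apply mul_le_mul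
                  · exact mul_le_mul_of_nonneg_right hC3 (by linarith)
                  · exact pow_le_pow_right₀ hC2 (by norm_num)
                  · positivity
                  · positivity
          · apply mul_le_mul_of_nonneg_right _ (by positivity)
            exact pow_le_pow_right₀ hA1 (by norm_num)
          · positivity
          · positivity

end Pool.Agent.H97.DM.KC
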